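import Pool.Agent.Run7.h570.WM.Main

/-!
# The monodromy-weight conjecture, smooth affine cubic hypersurfaces and graph hypersurfaces

`k` is a finite extension of `ℚ_p`, or a number field with a place `v` over `p`; `q` is the number of elements
of the residue field (at `v`); `Ω` is an algebraic closure of `ℚ_ℓ`, `ℓ ≠ p`. `D.H n w X` is the graded piece of
weight `w` of the cohomology with compact support `H_c^n(X_k̄, Ω)` of the scheme `X` over `k`, with the
Frobenius `Φ` and the logarithm of monodromy `N` of the local Galois group. `IsCoh` are known properties:
long exact sequences, affine bundles, products with `𝔾_m`, `Φ` has Weil numbers as eigenvalues, and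
`H^n(X)` is pure of weight `n` for smooth proper `X`. `Compactifications k` is a consequence of the theorems
of Nagata and Hironaka.

* `D.Conj q n`: for smooth proper `X` of dimension at most `n` all `H^i(X)` are mw pure of weight `i`. By de
  Jong's theorem on alterations, `(mw)_n` for all `O` is equivalent to `D.Conj q n` for all `p`-adic fields.
* `D.MW q X`: for all `n, w` the graded piece of weight `w` of `H_c^n(X)` is mw pure of weight `w`.
* `hypS T`: the smooth affine cubic hypersurface `T(x, y, z) = 1` of a trilinear form `T` over `k`.
* `complement ℚ Γ`: the open part of the affine space with the coordinates `x_e`, `e` an edge of the graph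
  `Γ`, where the Kirchhoff polynomial `∑_T ∏_{e ∈ T} x_e` (sum over the spanning trees) is invertible.

The starting point is that mw purity of all graded pieces has the property two out of three for a
closed part, its open complement and the scheme, although subrepresentations and quotients of an mw
pure representation are in general not mw pure: this is the five lemma for the maps `N^a` between the
parts of weight `w + a` and `w - a`.
-/

set_option autoImplicit false

open Pool.Agent.Y116.UV Run7.h570.WM Run7.h570.GH

namespace Pool.Agent.Results.MP_855f4c_ag.CubicAndGraphHypersurfaces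

/-- **Theorem.** (1) For every `n` the monodromy-weight conjecture for the smooth proper schemes over `k` of
dimension at most `n` is equivalent to mw purity of the graded pieces for the smooth affine cubic
hypersurfaces `T(x, y, z) = 1`, `T` a trilinear form over `k` one of whose blocks has at most `n + 2` variables
(the other two are arbitrary). (2) The graded pieces are mw pure for all forms with a block of at most four
variables, by the known case of dimension two. (3) For `k = ℚ` the monodromy-weight conjecture at `p` is
equivalent to mw purity of the graded pieces for the complements of graph hypersurfaces. -/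
theorem result {Ω : Type} [Field Ω] [CharZero Ω] [IsAlgClosed Ω] {q : ℕ} (hq : 1 < q) :
    (∀ (k : Type) [Field k] [CharZero k] (D : Coh k Ω), IsCoh q D → Compactifications k →
      (∀ n : ℕ, D.Conj q n ↔ ∀ (a b c : ℕ) (T : Fin a → Fin b → Fin c → k),
        (a ≤ n + 2 ∨ b ≤ n + 2 ∨ c ≤ n + 2) → D.MW q (hypS T)) ∧
      (D.Conj q 2 → ∀ (a b c : ℕ) (T : Fin a → Fin b → Fin c → k), (a ≤ 4 ∨ b ≤ 4 ∨ c ≤ 4) →
        D.MW q (hypS T))) ∧
    ∀ D : Coh ℚ Ω, IsCoh q D → Compactifications ℚ →
      ((∀ n : ℕ, D.Conj q n) ↔
        ∀ (n : ℕ) (Γ : SimpleGraph (Fin n)), D.MW q (complement ℚ Γ)) :=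
  ⟨fun _ _ _ _ hD hC => ⟨conj_tri hq hD hC, (conj_tri hq hD hC 2).mp⟩,
    fun _ hD hC => conj_graphs hq hD hC⟩

end Pool.Agent.Results.MP_855f4c_ag.CubicAndGraphHypersurfaces
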