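import Pool.Agent.Run7.h307.WM.Main

/-!
# The weight-monodromy conjecture in a p-adic neighbourhood of a normal crossing fibre

Let `K` be a finite extension of `ℚ_p`, with residue field with `q` elements, `B` a smooth curve over
`K`, `0 ∈ B(K)`, and `f : 𝒳 → B` flat and projective of relative dimension `n`, with `𝒳` regular,
smooth outside `0`, whose fibre `Y` over `0` is a reduced divisor with strict normal crossings. (By
semistable reduction in characteristic zero, every projective family over a punctured curve has
such an extension after a finite base change.) Let `u` be a local parameter of `B` at `0`. Note that
this is a degeneration in characteristic zero: `Y` is a variety over `K`, and nothing is assumed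
about models over the ring of integers of `K`.

Suppose that the strata of `Y` (the intersections of its components, smooth projective varieties over
`K`) satisfy the weight-monodromy conjecture; only the cohomology groups in the degrees `m` with
`3 ≤ m ≤ 2 dim - 3` matter, since the others are known to be mw pure. For `n = 3` this means the `H^3`
of the components of `Y`. Then the theorem says that the smooth projective varieties `X_t` over the
finite extensions `K(t)` of `K` (`t ≠ 0` a closed point of `B`, `p`-adically close to `0`) satisfy the
weight-monodromy conjecture in all degrees. More precisely, in the punctured disc on which
`R f_* Ω` is a Kummer local system, the conjecture holds for `X_t` unless the valuation of `u(t)` is in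
a certain finite set `S` of rational numbers.

Idea of the proof. On the limit cohomology `V` we have the geometric monodromy `N` around `0` and the
arithmetic monodromy `N_K`; the monodromy of `X_t` is (up to a factor) `N_K + c N`, where `c` is the
valuation of `u(t)`. The graded pieces of the monodromy filtration of `N` are mw pure with respect to
`N_K`, since the `E_2` term of the weight spectral sequence of the family (in characteristic zero!)
is. So there are two commuting Lefschetz operators on the bigraded space, whose sum is a Lefschetz
operator. This shows that `(N_K + X N)^a`, where `X` is a variable, is injective from the part of
weight `i + a` to the part of weight `i - a`; these parts have the same dimension, and so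
`(N_K + c N)^a` is bijective unless `c` is a root of a nonzero polynomial (a determinant).
-/

set_option autoImplicit false

open Pool.Agent.Y143 Run7.h307.WM

namespace Pool.Agent.Results.MP_855f4c_ag.NearNormalCrossings

/-- **The weight-monodromy conjecture near a normal crossing fibre.** `X` is a projective semistable
family over a curve over a `p`-adic field, with degenerate fibre `Y` over the point `0`. Suppose that
for all `a` and all `m` with `3 ≤ m ≤ 2 dim Y^(a+1) - 3` the cohomology `H^m(Y^(a+1))` is mw pure of
weight `m`, or a direct factor of a twist of a mw pure Galois representation (`h`). Then there is a
finite set `S` of rational numbers such that, for all closed points `t ≠ 0` of the disc whose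
valuation `v(u(t)) = val t / ram t` is not in `S`, and so for all `t ≠ 0` sufficiently close to `0`,
all `H^i(X_t)` are mw pure of weight `i`, as representations of the Galois group of `K(t)`, whose
residue field has `q ^ deg t` elements. -/
theorem result {Ω : Type} [Field Ω] [CharZero Ω] [IsAlgClosed Ω] {n q : ℕ} (hq : 1 < q)
    (X : Family Ω n q) (h : X.StrataPure) :
    ∃ S : Finset ℚ, ∀ t : X.fibres.Point, (X.fibres.val t / X.fibres.ram t : ℚ) ∉ S →
      ∀ i : ℕ, IsMWPure (q ^ X.fibres.deg t) i (X.fibres.frob t i) (X.fibres.mon t i) :=
  main hq X h

end Pool.Agent.Results.MP_855f4c_ag.NearNormalCrossings
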