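import Pool.Agent.Run7.h615.WS.Low

/-!
# MP_855f4c_ag: mw purity for reductions with fibred components and simple Frobenius spectrum
-/

set_option autoImplicit false

open Module

universe u v

namespace Pool.Agent.Results.MP_855f4c_ag.SimpleSpectrum

open Pool.Agent.Y143 Run7.h615.WL Run7.h615.WS

/-- **The monodromy-weight conjecture for reductions with fibred components and simple Frobenius
spectrum, in any dimension.** Let `X_K` be a smooth projective variety of dimension `n` over a finite
extension `K` of `ℚ_p` with a projective strictly semistable model over the ring of integers, with
residue field with `q` elements. `Y^(a+1)`, of dimension `n - a`, is the disjoint union of the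
intersections of `a + 1` different components of the special fibre; let `Y_i` (`i : I`) be the
components of `Y^(a+1)` and `D_j` (`j : J`) the components of `Y^(a+2)`, defined over the residue field.

Let `k ≥ 0`, and suppose that for all `a ≥ 0` and `w ≥ 2` with `a + 1 + w ≤ min(k, 2 n - k)` (so
`w < d = dim Y_i = n - a`, and `d ≥ 3`; for a threefold this is `a = 0`, `w = 2` only) one of the
following two conditions is true.

(F) (`FibredAt`) The cohomology `H^w(Y^(a+1))` is generated by

* the classes of divisors, if `w = 2`, and the multiples of the class `L` of an ample divisor, if
  `w ≥ 3`;
* classes with restriction zero to `Y^(a+2)`;
* for each `i`, a space `T i` of classes on `Y_i` which comes from a smooth projective variety `S_i` of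
  dimension `w`, the base of a fibration of `Y_i` (or of a covering of `Y_i`): the restriction from `T i`
  to `D_j` multiplies the intersection form `form i` of `S_i` by the degree `deg i j ≥ 0` of
  `D_j ∩ L^(d-1-w)` over `S_i`, and it is zero if this degree is zero.

Moreover, for each link, that is a `D_j` which is mapped onto `S_i` for at least two of the `Y_i` which
contain it, the Frobenius has simple spectrum on the transcendental part of `H^w(D_j)`: the
generalized eigenspaces in the classes orthogonal to the classes of divisors (for `w = 2`), or to the
multiples of `L` (for `w ≥ 3`), have dimension at most one; this is only necessary for the
eigenvalues `α` which occur on `T i` for two of these `i`.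

(H) (`HarmlessAt`) For each character `χ` (generalized eigenvalue of the Frobenius) one of the
following is true: the primitive part for `χ` of the term `E_1^(a+1, w)` of the weight spectral
sequence has dimension at most one, or it is contained in the coboundaries or meets them in zero, or
the primitive part for the dual character is contained in the coboundaries; or, up to a space as in
`GeneratedBy`, the classes of character `χ` in `H^w(Y^(a+1))` are combinations of classes of divisors
(`w = 2`), or they are in `L H^(w-2)` (`w ≥ 3`), or `w = 2 c + 2`, they are algebraic, `H^(2c)(Y^(a+2))` is
spanned by algebraic classes and the classes of codimension `c + 1` on `Y^(a+2)` satisfy the Hodge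
standard conjecture.

Then `H^k` of the geometric generic fibre is mw pure of weight `k`.

For threefolds, (F) is satisfied if all components `Y_i` of the special fibre are uniruled and the
Frobenius on the transcendental part of the second cohomology of the double surfaces has no multiple
eigenvalue: if `P → Y_i` is a dominant map of degree `m` and `P` has a fibration over a surface `S` whose
general fibre is a rational curve, with image `C` in `Y_i`, then `H^2(Y_i)` is the direct sum of the
classes of divisors and the space `T i` of the classes `x` whose pull-back to `P` is the pull-back of a
class `x_S` on `S` which is orthogonal to the classes of curves, `form i x y = (x_S . y_S) / m` and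
`deg i j = D_j . C`. If `H^2(Y_i)` is spanned by classes of divisors, let `T i = 0`. So the
monodromy-weight conjecture is true for all threefolds whose reduction has uniruled components (or
components without transcendental cycles) such that the Frobenius on the transcendental part of the
second cohomology of the double surfaces has no multiple eigenvalue. There is no condition on the
dual complex, on the geometric genus of the double surfaces, on `H^3` of the components or of the
generic fibre, and the Tate conjecture is not assumed.

In dimension `n ≥ 4` condition (F) is satisfied, for example, if the special fibre is a chain or a
cycle of projective line bundles over smooth complete intersections `S_i` of dimension `n - 1`, glued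
along sections, such that the Frobenius has simple spectrum on the primitive cohomology of the
`S_i`; and if all strata of dimension at least three are complete intersections in projective
spaces, or blow-ups of complete intersections along complete intersections of codimension two.

The fields of the structures are known facts: `Degeneration` is the cohomology of the strata and of
the generic fibre with the weight spectral sequence and the hard Lefschetz theorem;
`DivisorClasses` has the Hodge index theorem and Weil's positivity; the composites of the
restrictions `T i → H^w(D_j)` and their transposes `H^w(D_j) → T i'` are given by algebraic
correspondences, so together with powers of the Frobenius they have rational traces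
(`HasRationalTraces`). -/
theorem result {Ω : Type u} [Field Ω] [CharZero Ω] [IsAlgClosed Ω] {Γ : Type} {n q : ℕ}
    (X : Degeneration.{u, v} Ω Γ n q) (A : DivisorClasses X.toSpecialFibre)
    (C : CycleClasses X.toSpecialFibre) (k : ℕ)
    (h : ∀ a w : ℕ, 2 ≤ w → a + 1 + w ≤ k → a + 1 + w + k ≤ 2 * n →
      FibredAt A a w ∨ ∀ χ : Γ → Ω, HarmlessAt A C a w χ) :
    IsMWPure q k (X.actV k X.frob) (X.N k) :=
  mw_of_fibred_or X A C k h

end Pool.Agent.Results.MP_855f4c_ag.SimpleSpectrum
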