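import Pool.Agent.Run7.h615.WM.Final

/-!
# MP_855f4c_ag: mw purity for threefolds whose components are uniruled and whose links form a forest
-/

set_option autoImplicit false

open Module

universe u v

namespace Pool.Agent.Results.MP_855f4c_ag.UniruledReduction

open Pool.Agent.Y143 Pool.Agent.X302.MW Run7.h615.WM
open scoped NNReal

/-- **The monodromy-weight conjecture for threefolds with uniruled reduction whose links form a
forest.** Let `X_K` be a smooth projective threefold over a finite extension `K` of `ℚ_p` with a
projective strictly semistable model over the ring of integers, with residue field with `q`
elements. Let `Y_i` (`i : I`) be the components of the special fibre and `D_j` (`j : J`) the double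
surfaces. Suppose that

(1) the `Y_i` satisfy the Tate conjecture for divisors (`hT`);

(2) on the non-Tate part of `H^2(Y_i)` (the Frobenius eigenvalues which are not of the form `q ζ` with
a root of unity `ζ`), the forms `x|D_j . y|D_j` given by the double surfaces `D_j` in `Y_i` are
multiples `deg i j * form i x y`, with `deg i j` a natural number, of one nondegenerate form, and the
restriction to `D_j` is zero if `deg i j = 0` (`F`);

(3) for each non-Tate `α`, the graph whose vertices are the components and whose edges are the links
(the `D_j` with `deg i j ≠ 0` and `α` an eigenvalue on `H^2(Y_i)`, for both components `Y_i` which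
contain `D_j`) is a forest, with an orientation such that for each link `D_j` the geometric genus of
`D_j` is at most one or `α` has the same multiplicity in `H^2(D_j)` and in `H^2` of the component
above `D_j` (`hF`).

Then `H^k` of the geometric generic fibre is mw pure of weight `k`, for all `k`.

Condition (2) is satisfied if each `Y_i` has one of the following properties: `H^2(Y_i)` has no
non-Tate part; `Y_i` is uniruled (`deg i j` is the intersection number of `D_j` with the general
rational curve `C` of a covering family, parametrized by a surface `S`, and `(L . C) * form i x y =
x . y . L` for an ample `L`; this is because non-Tate classes on `Y_i` come from classes on `S`); the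
Picard number of `Y_i` is one; `Y_i` is fibred over a curve in K3 surfaces and the `D_j` in `Y_i` are
fibres or have no non-Tate classes. For example, all conditions are satisfied for the degenerations
of type II of Calabi-Yau threefolds, with special fibre a chain of components, the interior ones
uniruled and the outer ones without non-Tate classes, which meet in K3 surfaces (the Tate conjecture
is known in this case).

The other hypotheses are known. `hI`: the Frobenius eigenvalues on the strata are algebraic integers.
`hR`: the characteristic polynomials of the Frobenius on `H^2(Y_i)` and `H^2(D_j)` are rational. `hS`:
for a `p`-adic valuation `w`, Manin's integrality of the Newton polygons of the Frobenius on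
`H^2(Y_i)` and on `H^2(D_j)`, and the Newton polygon of `H^2(D_j)` lies above the Hodge polygon; `pg j`
is the geometric genus of `D_j`. -/
theorem result {Ω : Type u} [Field Ω] [CharZero Ω] [IsAlgClosed Ω] {Γ : Type} {q : ℕ}
    (hq : IsPrimePow q) (X : Degeneration.{u, v} Ω Γ 3 q) (A : DivisorClasses X.toSpecialFibre)
    (hI : HasIntegralFrobenius X.toSpecialFibre) (hT : A.TateConj 0)
    {I J : Type} [Fintype I] [Fintype J] (D : Components X.toSpecialFibre I J)
    (hR : D.IsRational) (w : Valuation Ω ℝ≥0) (pg : J → ℕ) (hS : HasSlopes D w pg)
    (F : ProportionalForms D) (hF : ∀ α : Ω, ¬ IsTateNumber q α → F.IsForest pg α) (k : ℕ) :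
    IsMWPure q k (X.actV k X.frob) (X.N k) :=
  mw_forest rfl hq X A hI hT D hR F w pg hS hF k

end Pool.Agent.Results.MP_855f4c_ag.UniruledReduction
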